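import Mathlib
import Pool.Agent.H308R3.Nil
import Pool.Agent.Y307.Prof.Walk

set_option linter.unusedSectionVars false

open Finset Filter Topology
open Pool.Agent

namespace Pool.Agent.Results.MP_7f396f_pr.NilpotentProfile

noncomputable section

/-- Simple random walk on the undirected Cayley graph `G(Z)`: the vertex set is `G`, there is an
edge `{g, g z}` for each `g ∈ G` and `z ∈ Z` (multiple edges counted), and the walk moves to a
uniformly chosen neighbour. The edges at `x` are the pairs `{x, x z}` and the pairs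
`{x z⁻¹, x}`, `2 |Z|` in all. -/
def srw {G : Type} [Group G] [DecidableEq G] (Z : Finset G) : Matrix G G ℝ :=
  fun x y => (((Z.filter fun z => x * z = y).card : ℝ) + ((Z.filter fun z => y * z = x).card : ℝ)) /
    (2 * (Z.card : ℝ))

/-- Worst-case total variation distance to the uniform distribution at time `t`:
`d(t) = max_x (1/2) * ∑_y |P^t(x,y) - 1/|G||`. -/
def dTV {Ω : Type} [Fintype Ω] [DecidableEq Ω] (P : Matrix Ω Ω ℝ) (t : ℕ) : ℝ :=
  ⨆ x : Ω, (1 / 2 : ℝ) * ∑ y, |(P ^ t) x y - 1 / (Fintype.card Ω : ℝ)|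

/-- The mixing time `t_mix(ε) = min {t : d(t) ≤ ε}`. -/
def tmix {Ω : Type} [Fintype Ω] [DecidableEq Ω] (P : Matrix Ω Ω ℝ) (ε : ℝ) : ℕ :=
  sInf {t : ℕ | dTV P t ≤ ε}

/-- The spectral gap `1 - λ₂`, with `λ₂` the second largest eigenvalue; for an irreducible
chain the eigenvalue `1` is simple, so `λ₂` is the largest eigenvalue different from `1`. -/
def gap {Ω : Type} [Fintype Ω] [DecidableEq Ω] (P : Matrix Ω Ω ℝ) : ℝ :=
  1 - sSup (spectrum ℝ P \ {1})

/-- Irreducible and aperiodic: some power of `P` has only positive entries. -/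
def IrredAper {Ω : Type} [Fintype Ω] [DecidableEq Ω] (P : Matrix Ω Ω ℝ) : Prop :=
  ∃ t : ℕ, ∀ x y, 0 < (P ^ t) x y

section

variable {G : Type} [Group G] [Fintype G] [DecidableEq G]

theorem srw_mulVec (Z : Finset G) (hZ : ∀ z ∈ Z, z⁻¹ ∈ Z) (f : G → ℝ) (x : G) :
    (srw Z).mulVec f x = (∑ z ∈ Z, f (x * z)) / (Z.card : ℝ) := by
  have h1 : ∀ y, ((Z.filter fun z => x * z = y).card : ℝ) * f y =
      ∑ z ∈ Z, if x * z = y then f (x * z) else 0 := by
    intro y
    rw [← Finset.sum_filter, Finset.sum_congr rfl (g := fun _ => f y), Finset.sum_const,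
      nsmul_eq_mul]
    intro z hz
    rw [(Finset.mem_filter.mp hz).2]
  have h2 : ∀ y, ((Z.filter fun z => y * z = x).card : ℝ) * f y =
      ∑ z ∈ Z, if x * z⁻¹ = y then f (x * z⁻¹) else 0 := by
    intro y
    have e : (Z.filter fun z => y * z = x) = (Z.filter fun z => x * z⁻¹ = y) := by
      ext z
      simp only [Finset.mem_filter]
      rw [mul_inv_eq_iff_eq_mul]
      constructor
      · rintro ⟨a, b⟩; exact ⟨a, b.symm⟩
      · rintro ⟨a, b⟩; exact ⟨a, b.symm⟩
    rw [e, ← Finset.sum_filter, Finset.sum_congr rfl (g := fun _ => f y), Finset.sum_const,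
      nsmul_eq_mul]
    intro z hz
    rw [(Finset.mem_filter.mp hz).2]
  have h3 : (srw Z).mulVec f x = ∑ y, (((Z.filter fun z => x * z = y).card : ℝ) * f y +
      ((Z.filter fun z => y * z = x).card : ℝ) * f y) / (2 * (Z.card : ℝ)) := by
    simp only [Matrix.mulVec, dotProduct, srw]
    refine Finset.sum_congr rfl fun y _ => by ring
  rw [h3]
  simp only [h1, h2]
  rw [← Finset.sum_div, Finset.sum_add_distrib, Finset.sum_comm, Finset.sum_comm (s := univ)]
  simp only [Finset.sum_ite_eq, Finset.mem_univ, if_true]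
  have h4 : ∑ z ∈ Z, f (x * z⁻¹) = ∑ z ∈ Z, f (x * z) := by
    refine Finset.sum_bij' (fun z _ => z⁻¹) (fun z _ => z⁻¹) hZ hZ ?_ ?_ ?_
    · intro z _; simp
    · intro z _; simp
    · intro z _; rfl
  rw [h4, ← two_mul, mul_div_mul_left _ _ (by norm_num)]

end

section

variable {N : ℕ} [NeZero N] {Q : Type} [Group Q] [Fintype Q] [DecidableEq Q]
  {P : Matrix (Multiplicative (ZMod N) × Q) (Multiplicative (ZMod N) × Q) ℝ}
  {S : Finset (ZMod N)} {T R M : ℕ} {w : ℝ}

/-- lower bound for the total variation distance up to time `R` -/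
theorem tv_lower (h : Y307.Prof.Expo S R M w) (hM : 1 ≤ M) (hB : Helper394.Bad S T)
    (hP : H308R3.Nil.Acts P S) (k : ℕ) (hk : k ≤ R) :
    (1 - 1 / (M : ℝ)) * w ^ k - 1 / (M : ℝ) ≤ (1 / 2 : ℝ) * ∑ y, |(P ^ k) 1 y -
      1 / (Fintype.card (Multiplicative (ZMod N) × Q) : ℝ)| := by
  obtain ⟨E, hE, hl⟩ := h.lower
  have hM' : (0 : ℝ) < M := by exact_mod_cast hM
  set g : ZMod N → ℝ := fun x => if x ∈ E then (1 : ℝ) else 0 with hg
  have hg0 : ∀ b, 0 ≤ g b := fun b => by simp only [hg]; split_ifs <;> norm_num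
  have hg1 : ∀ b, g b ≤ 1 := fun b => by simp only [hg]; split_ifs <;> norm_num
  have h1 := H308R3.Nil.tv_ge (fun y => (P ^ k) 1 y) (hP.row_sum hB k 1)
    (fun x => g (Multiplicative.toAdd x.1)) (fun y => hg0 _) (fun y => hg1 _)
  rw [H308R3.Nil.msum, hP.pow_fst, ← H308R3.Nil.sum_bar, H308R3.Nil.bar_fst] at h1
  have h2 := hl k hk
  have h3 : (∑ b, g b) / (Fintype.card (ZMod N) : ℝ) ≤ 1 / (M : ℝ) := by
    have h4 : ∑ b, g b = E.card := by simp [hg]
    have h5 : (0 : ℝ) < Fintype.card (ZMod N) := by exact_mod_cast Fintype.card_pos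
    rw [h4, div_le_div_iff₀ h5 hM']
    linarith
  have h4 : (Helper394.U S ^ k) g
      (Multiplicative.toAdd (1 : Multiplicative (ZMod N) × Q).1) =
      (Helper394.U S ^ k) g 0 := rfl
  simp only [h4] at h1
  linarith

/-- lower bound for the entries of the powers of the transition matrix -/
theorem entry_lower (h : Y307.Prof.Expo S R M w) (hM : 1 ≤ M) (hw0 : 0 < w) (hw1 : w < 1)
    (hP : H308R3.Nil.Acts P S) (k : ℕ) (x y : Multiplicative (ZMod N) × Q) :
    ((1 - 1 / (M : ℝ)) * (1 - w ^ k * (1 / w ^ 2))) /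
      Fintype.card (Multiplicative (ZMod N) × Q) ≤ (P ^ k) x y := by
  have hM' : (1 : ℝ) ≤ M := by exact_mod_cast hM
  have hM1 : 0 ≤ 1 - 1 / (M : ℝ) := by
    rw [sub_nonneg, div_le_one (by linarith)]
    exact hM'
  rw [H308R3.Nil.entry]
  rcases Nat.eq_zero_or_pos k with rfl | hk
  · have h1 : 1 ≤ w ^ 0 * (1 / w ^ 2) := by
      rw [pow_zero, one_mul, one_le_div (by positivity)]
      exact pow_le_one₀ hw0.le hw1.le
    have h2 : (1 - 1 / (M : ℝ)) * (1 - w ^ 0 * (1 / w ^ 2)) ≤ 0 :=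
      mul_nonpos_of_nonneg_of_nonpos hM1 (by linarith)
    refine (div_nonpos_of_nonpos_of_nonneg h2 (Nat.cast_nonneg _)).trans ?_
    rw [pow_zero, Matrix.one_mulVec, Pi.single_apply]
    split_ifs <;> norm_num
  · obtain ⟨m, rfl⟩ := Nat.exists_eq_add_of_le' hk
    rw [hP.pow_succ]
    have h1 := h.up hM hw0 hw1 (m + 1)
      (H308R3.Nil.bar (Pi.single y 1 : Multiplicative (ZMod N) × Q → ℝ))
      (fun b => div_nonneg (Finset.sum_nonneg fun z _ => by
        rw [Pi.single_apply]; split_ifs <;> norm_num) (Nat.cast_nonneg _))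
      (Multiplicative.toAdd x.1)
    rw [H308R3.Nil.sum_bar, Finset.sum_pi_single' y (1 : ℝ) univ] at h1
    simp only [Finset.mem_univ, if_true] at h1
    calc _ = (1 - 1 / (M : ℝ)) * (1 - w ^ (m + 1) * (1 / w ^ 2)) *
          (1 / Fintype.card (Multiplicative (ZMod N) × Q)) := by ring
      _ ≤ _ := h1

end

/-- For every finite nilpotent group `Q` (of any step, e.g. the trivial group) there are groups
`G_n = C_n × Q` with `C_n` cyclic, of step `max(1, step Q)`, symmetric generating sets `Z_n` and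
times `t_n → ∞` for which the simple random walks are irreducible and aperiodic, have
spectral gap at least `1/4`, and have the limit profile `d_n(⌊s t_n⌋) → e^{-s}` for every
`s ≥ 0`; moreover `t_mix(ε)/t_n → log(1/ε)` for every `ε ∈ (0,1)`. In particular the product
condition holds, `t_mix(ε)/t_mix(1-ε)` tends to `log(1/ε)/log(1/(1-ε)) > 1` for every
`ε ∈ (0,1/2)`, and there is no cutoff. -/
theorem result (Q : Type) [Group Q] [Finite Q] [Group.IsNilpotent Q] :
    ∃ (C : ℕ → Type) (_ : ∀ n, CommGroup (C n)) (_ : ∀ n, Fintype (C n × Q))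
      (_ : ∀ n, DecidableEq (C n × Q)) (Z : ∀ n, Finset (C n × Q)) (t : ℕ → ℝ),
      (∀ n, IsCyclic (C n)) ∧
      Tendsto (fun n => Fintype.card (C n × Q)) atTop atTop ∧
      (∀ n, ∃ _ : Group.IsNilpotent (C n × Q),
        Group.nilpotencyClass (C n × Q) = max 1 (Group.nilpotencyClass Q)) ∧
      (∀ n, ∀ z ∈ Z n, z⁻¹ ∈ Z n) ∧
      (∀ n, (1 : C n × Q) ∉ Z n) ∧
      (∀ n, Subgroup.closure (Z n : Set (C n × Q)) = ⊤) ∧
      (∀ n, IrredAper (srw (Z n))) ∧
      (∀ n, 1 / 4 ≤ gap (srw (Z n))) ∧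
      Tendsto t atTop atTop ∧
      (∀ s : ℝ, 0 ≤ s →
        Tendsto (fun n => dTV (srw (Z n)) ⌊s * t n⌋₊) atTop (𝓝 (Real.exp (-s)))) ∧
      (∀ ε : ℝ, 0 < ε → ε < 1 →
        Tendsto (fun n => (tmix (srw (Z n)) ε : ℝ) / t n) atTop (𝓝 (Real.log (1 / ε)))) ∧
      (∀ ε : ℝ, 0 < ε → ε < 1 / 2 →
        1 < Real.log (1 / ε) / Real.log (1 / (1 - ε)) ∧
        Tendsto (fun n => (tmix (srw (Z n)) ε : ℝ) / (tmix (srw (Z n)) (1 - ε) : ℝ)) atTop
          (𝓝 (Real.log (1 / ε) / Real.log (1 / (1 - ε))))) ∧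
      Tendsto (fun n => (tmix (srw (Z n)) (1 / 4) : ℝ) * gap (srw (Z n))) atTop atTop ∧
      ¬ (∀ ε : ℝ, 0 < ε → ε < 1 →
        Tendsto (fun n => (tmix (srw (Z n)) ε : ℝ) / (tmix (srw (Z n)) (1 - ε) : ℝ))
          atTop (𝓝 1)) := by
  classical
  have : Fintype Q := Fintype.ofFinite Q
  obtain ⟨N, hN, S, w, hNn, hw1, hw2, hE⟩ := Y307.Prof.exists_seq
  have hB : ∀ n, Helper394.Bad (S n) (n + 64) := fun n =>
    (hE n).bad (by omega) (by nlinarith) (by omega) (by push_cast; exact hw1 n)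
      (by push_cast; exact hw2 n)
  have hinv : ∀ n, ∀ z ∈ H308R3.Nil.gset (S n) Q, z⁻¹ ∈ H308R3.Nil.gset (S n) Q := by
    intro n z hz
    simp only [H308R3.Nil.gset, Finset.mem_product, Finset.mem_map, Finset.mem_univ,
      and_true] at hz ⊢
    obtain ⟨a, ha, hb⟩ := hz
    refine ⟨-a, (hB n).neg a ha, ?_⟩
    rw [Prod.fst_inv, ← hb]
    rfl
  have hone : ∀ n, (1 : Multiplicative (ZMod (N n)) × Q) ∉ H308R3.Nil.gset (S n) Q := by
    intro n hz
    simp only [H308R3.Nil.gset, Finset.mem_product, Finset.mem_map, Finset.mem_univ,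
      and_true] at hz
    obtain ⟨a, ha, hb⟩ := hz
    have h0 : a = 0 := by
      have h1 : Multiplicative.toAdd (Multiplicative.ofAdd a) =
          Multiplicative.toAdd (1 : Multiplicative (ZMod (N n))) := congrArg _ hb
      simpa using h1
    rw [h0] at ha
    exact (hE n).zero ha
  have hP : ∀ n, H308R3.Nil.Acts (srw (H308R3.Nil.gset (S n) Q)) (S n) := by
    intro n f x
    rw [srw_mulVec _ (hinv n), H308R3.Nil.avg_gset]
  have hlow : ∀ n k : ℕ, k ≤ (n + 64) ^ 2 →
      (1 - 1 / ((n + 64 : ℕ) : ℝ)) * (1 - 1 * (1 - w n)) ^ k - 1 / ((n + 64 : ℕ) : ℝ) ≤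
        dTV (srw (H308R3.Nil.gset (S n) Q)) k := by
    intro n k hk
    have h := tv_lower (hE n) (by omega) (hB n) (hP n) k hk
    have h' := Helper394.ciSup_ge_val
      (fun x : Multiplicative (ZMod (N n)) × Q => (1 / 2 : ℝ) *
        ∑ y, |((srw (H308R3.Nil.gset (S n) Q)) ^ k) x y -
          1 / (Fintype.card (Multiplicative (ZMod (N n)) × Q) : ℝ)|) 1
    have e : (1 : ℝ) - 1 * (1 - w n) = w n := by ring
    rw [e]
    exact h.trans h'
  have hup : ∀ n k : ℕ, dTV (srw (H308R3.Nil.gset (S n) Q)) k ≤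
      1 - (1 - 1 / ((n + 64 : ℕ) : ℝ)) * (1 - (1 - 1 * (1 - w n)) ^ k * (1 / w n ^ 2)) := by
    intro n k
    apply ciSup_le
    intro x
    have e : (1 : ℝ) - 1 * (1 - w n) = w n := by ring
    rw [e]
    exact Y307.Prof.tv_le_of_min _ ((hP n).row_sum (hB n) k x) _ (fun y =>
      entry_lower (hE n) (by omega) (Y307.Prof.w_pos hw2 n) (Y307.Prof.w_lt hw1 n) (hP n) k x y)
  have hsq : Y307.Prof.Squeeze (fun n k => dTV (srw (H308R3.Nil.gset (S n) Q)) k)
      (fun n => 1 - 1 * (1 - w n)) (fun n => 1 / w n ^ 2)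
      (fun n => 1 / (1 * (1 - w n))) (fun n => (n + 64) ^ 2) (fun n => n + 64) :=
    Y307.Prof.squeeze_of hw1 hw2 1 (by norm_num) le_rfl _ hlow hup
  have hgap : ∀ n, 1 / 4 ≤ gap (srw (H308R3.Nil.gset (S n) Q)) := by
    intro n
    rw [gap]
    have : sSup (spectrum ℝ (srw (H308R3.Nil.gset (S n) Q)) \ {1}) ≤ 3 / 4 := by
      apply Real.sSup_le _ (by norm_num)
      rintro x ⟨hx, hx1⟩
      exact (abs_le.mp ((hP n).spec (hB n) x hx hx1)).2
    linarith
  have hmix : ∀ ε : ℝ, 0 < ε → ε < 1 →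
      Tendsto (fun n => (tmix (srw (H308R3.Nil.gset (S n) Q)) ε : ℝ) /
        (1 / (1 * (1 - w n)))) atTop (𝓝 (Real.log (1 / ε))) :=
    fun ε h0 h1 => hsq.mixing h0 h1
  have hratio : ∀ ε : ℝ, 0 < ε → ε < 1 / 2 →
      Tendsto (fun n => (tmix (srw (H308R3.Nil.gset (S n) Q)) ε : ℝ) /
        (tmix (srw (H308R3.Nil.gset (S n) Q)) (1 - ε) : ℝ)) atTop
        (𝓝 (Real.log (1 / ε) / Real.log (1 / (1 - ε)))) :=
    fun ε h0 h1 => hsq.ratio h0 (by linarith) (by linarith) (by linarith)
  have hmin : ∀ n, ∀ x y, 0 < ((srw (H308R3.Nil.gset (S n) Q)) ^ (n + 64 + 1)) x y := by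
    intro n x y
    refine lt_of_lt_of_le ?_ ((hP n).minor_entry (hB n) (n + 64) (by omega) x y)
    have : (0 : ℝ) < Fintype.card (Multiplicative (ZMod (N n)) × Q) := by
      exact_mod_cast Fintype.card_pos
    positivity
  refine ⟨fun n => Multiplicative (ZMod (N n)), fun n => inferInstance, fun n => inferInstance,
    fun n => inferInstance, fun n => H308R3.Nil.gset (S n) Q, fun n => 1 / (1 * (1 - w n)),
    ?_, ?_, ?_, hinv, hone, ?_, ?_, hgap, hsq.tlim, fun s hs => hsq.profile hs, hmix,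
    fun ε h0 h1 => ⟨Y307.Prof.log_ratio_ne h0 h1, hratio ε h0 h1⟩, ?_, ?_⟩
  · intro n; infer_instance
  · refine tendsto_atTop_mono (fun n => ?_) tendsto_id
    rw [Fintype.card_prod, Fintype.card_multiplicative, ZMod.card]
    have h4 := hNn n
    have h5 : 0 < Fintype.card Q := Fintype.card_pos
    simp only [id]
    nlinarith
  · intro n
    have hc : Group.nilpotencyClass (Multiplicative (ZMod (N n))) = 1 := by
      apply le_antisymm CommGroup.nilpotencyClass_le_one
      by_contra hcon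
      have h0 : Group.nilpotencyClass (Multiplicative (ZMod (N n))) = 0 := by omega
      rw [Group.nilpotencyClass_zero_iff_subsingleton] at h0
      have h4 : Fintype.card (Multiplicative (ZMod (N n))) ≤ 1 :=
        Fintype.card_le_one_iff_subsingleton.mpr h0
      rw [Fintype.card_multiplicative, ZMod.card] at h4
      have := hNn n
      omega
    exact ⟨inferInstance, by rw [Group.nilpotencyClass_prod, hc]⟩
  · intro n
    rw [eq_top_iff]
    intro x _
    have hpow : ∀ t : ℕ, ∀ y, y ∉ Subgroup.closure (H308R3.Nil.gset (S n) Q :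
        Set (Multiplicative (ZMod (N n)) × Q)) →
        ((srw (H308R3.Nil.gset (S n) Q)) ^ t) 1 y = 0 := by
      intro t
      induction t with
      | zero =>
        intro y hy
        rw [pow_zero, Matrix.one_apply_ne]
        rintro rfl
        exact hy (Subgroup.one_mem _)
      | succ t ih =>
        intro y hy
        rw [pow_succ, Matrix.mul_apply]
        apply Finset.sum_eq_zero
        intro w _
        by_cases hw : w ∈ Subgroup.closure (H308R3.Nil.gset (S n) Q :
          Set (Multiplicative (ZMod (N n)) × Q))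
        · have e1 : ((H308R3.Nil.gset (S n) Q).filter fun z => w * z = y) = ∅ := by
            rw [Finset.filter_eq_empty_iff]
            intro z hz he
            exact hy (he ▸ Subgroup.mul_mem _ hw (Subgroup.subset_closure hz))
          have e2 : ((H308R3.Nil.gset (S n) Q).filter fun z => y * z = w) = ∅ := by
            rw [Finset.filter_eq_empty_iff]
            intro z hz he
            apply hy
            have : y = w * z⁻¹ := by rw [← he]; group
            rw [this]
            exact Subgroup.mul_mem _ hw (Subgroup.inv_mem _ (Subgroup.subset_closure hz))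
          have : srw (H308R3.Nil.gset (S n) Q) w y = 0 := by
            simp only [srw, e1, e2]
            simp
          rw [this, mul_zero]
        · rw [ih w hw, zero_mul]
    by_contra hx
    have h5 := hmin n 1 x
    rw [hpow _ x hx] at h5
    exact lt_irrefl _ h5
  · exact fun n => ⟨_, hmin n⟩
  · have h1 : Tendsto (fun n => ((tmix (srw (H308R3.Nil.gset (S n) Q)) (1 / 4) : ℝ) /
        (1 / (1 * (1 - w n)))) * (1 / (1 * (1 - w n)))) atTop atTop := by
      refine (hmix (1 / 4) (by norm_num) (by norm_num)).pos_mul_atTop ?_ hsq.tlim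
      apply Real.log_pos
      norm_num
    have h2 : Tendsto (fun n => (tmix (srw (H308R3.Nil.gset (S n) Q)) (1 / 4) : ℝ) * (1 / 4))
        atTop atTop := by
      refine (h1.atTop_mul_const (by norm_num : (0 : ℝ) < 1 / 4)).congr fun n => ?_
      have h3 : (1 / (1 * (1 - w n)) : ℝ) ≠ 0 := by
        have := hsq.tpos n
        linarith
      rw [div_mul_cancel₀ _ h3]
    refine tendsto_atTop_mono (fun n => ?_) h2
    exact mul_le_mul_of_nonneg_left (hgap n) (Nat.cast_nonneg _)
  · intro hcut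
    have h1 := tendsto_nhds_unique (hcut (1 / 4) (by norm_num) (by norm_num))
      (hratio (1 / 4) (by norm_num) (by norm_num))
    have h2 := Y307.Prof.log_ratio_ne (ε := 1 / 4) (by norm_num) (by norm_num)
    linarith

end

end Pool.Agent.Results.MP_7f396f_pr.NilpotentProfile
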